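import Pool.Agent.Helper819.Comp

/-!
For all `N ≥ 2`, `d ≥ 2`, `n ≥ 1` some irreducible `Γ ⊆ M_d^N` has a rational curve as an
irreducible component of `i_n⁻¹(Γ)`.
-/

namespace Pool.Agent.Results.MP_6aac57_ag.RationalComponent

open Pool.Agent.Helper819.Dyn

theorem result : ∀ N d n : ℕ, 2 ≤ N → 2 ≤ d → 1 ≤ n →
    ∃ Γ : Set (Moduli ℂ N d), IsClosed Γ ∧ IsIrreducible Γ ∧
      ∃ Δ ∈ irreducibleComponents ↥(forget ℂ N d n ⁻¹' Γ),
        IsRationalCurve (Subtype.val '' Δ) :=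
  fun N d n hN hd hn => main_complex N d n hN hd hn

end Pool.Agent.Results.MP_6aac57_ag.RationalComponent
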